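import Pool.Agent.V11166.Cube6.Three

set_option autoImplicit false

/-!
# For which dimensions and orders does a variational cube exist?

A variational cube of dimension `m ≥ 2` and order `n ≥ 2` (that is, a variational set of `m`
permutation cubes of dimension `m`, so `π_m(n) ≥ m`) exists if and only if `n ≠ 2` and
`(m, n) ≠ (2, 6)`.  The case which was missing is `(m, n) = (3, 6)`.
-/

namespace Pool.Agent.Results.MP_c7a479_co.CubeSpectrum

open Pool.Agent.H430R2.PermCubes

/-- For all `m, n ≥ 2` there are `m` permutation cubes of dimension `m` and order `n` which form a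
variational cube if and only if `n ≠ 2` and not (`m = 2` and `n = 6`). -/
theorem result :
    ∀ m n : ℕ, 2 ≤ m → 2 ≤ n →
      ((∃ C : Fin m → (Fin m → Fin n) → Fin n, IsVariationalSet m n m C) ↔
        n ≠ 2 ∧ ¬ (m = 2 ∧ n = 6)) := by
  intro m n hm hn
  constructor
  · rintro ⟨C, hC⟩
    refine ⟨?_, ?_⟩
    · rintro rfl
      have := two_le hC hm
      omega
    · rintro ⟨rfl, rfl⟩
      exact Pool.Agent.V11166.Cube6.not_two_six ⟨C, hC⟩
  · rintro ⟨h2, h26⟩
    by_cases hm2 : m = 2
    · subst hm2
      exact Pool.Agent.V11166.Cube6.exists_two (by omega) h2 (fun h6 => h26 ⟨rfl, h6⟩)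
    · by_cases h6 : n = 6
      · subst h6
        by_cases hm3 : m = 3
        · subst hm3
          exact ⟨_, Pool.Agent.V11166.Cube6.isVariational_cube⟩
        · rcases Nat.even_or_odd m with he | ho
          · obtain ⟨C, hC⟩ := Pool.Agent.TH7.Cyc.exists_cyc_even (by omega) he
            exact ⟨C, hC.1⟩
          · have h5 : 5 ≤ m := by
              obtain ⟨r, hr⟩ := ho
              omega
            exact Pool.Agent.V11166.Cube6.mono (Nat.le_succ m)
              (Pool.Agent.TH302.Cubes.exists_odd h5 ho)
      · exact Pool.Agent.V11166.Cube6.mono (Nat.le_succ m)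
          (exists_succ (by omega) (by omega) h2 h6)

end Pool.Agent.Results.MP_c7a479_co.CubeSpectrum
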